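import Pool.Agent.H.MP_718c62_al.A

set_option autoImplicit false

namespace Pool.Agent.Ico

open MvPolynomial

section general
variable {σ : Type} [DecidableEq σ]

/-- Coboundary modulo two. -/
def cob (η : Finset σ → ZMod 2) (X : Finset σ) : ZMod 2 := ∑ v ∈ X, η (X.erase v)

lemma sym_sum (f : σ → σ → ZMod 2) (h : ∀ u v, f u v = f v u) (h0 : ∀ u, f u u = 0)
    (Y : Finset σ) : ∑ u ∈ Y, ∑ v ∈ Y, f u v = 0 := by
  induction Y using Finset.induction_on with
  | empty => simp
  | insert a Y ha ih =>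
    simp only [Finset.sum_insert ha, Finset.sum_add_distrib, ih, h0, h a, zero_add, add_zero]
    exact CharTwo.add_self_eq_zero _

lemma cob_cob (η : Finset σ → ZMod 2) (Y : Finset σ) : cob (cob η) Y = 0 := by
  rw [← sym_sum (fun u v => if v ≠ u then η ((Y.erase u).erase v) else 0) (fun u v => by
    simp only [ne_comm, Finset.erase_right_comm]) (fun u => by simp) Y]
  refine Finset.sum_congr rfl fun u _ => ?_
  rw [← Finset.sum_filter, Finset.filter_ne', cob]

/-- Sets containing a member of the list. -/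
def U (L : List (Finset σ)) (Y : Finset σ) : Prop := ∃ S ∈ L, S ⊆ Y

/-- Combinatorial form of linear quotients; the list is read backwards. -/
def LQ : List (Finset σ) → Prop
  | [] => True
  | S :: L => LQ L ∧ S.card = 3 ∧ ∀ x ∉ S, ∀ y ∉ S, ¬ U L (insert x S) → ¬ U L (insert y S) →
      ¬ U L (insert x (insert y S))

lemma main : ∀ (L : List (Finset σ)), LQ L → ∀ η : Finset σ → ZMod 2,
    (∀ X : Finset σ, X.card = 4 → ¬ U L X → cob η X = 0) →
    ∃ ψ : Finset σ → ZMod 2, (∀ T ∉ L, ψ T = η T) ∧ ∀ X : Finset σ, X.card = 4 → cob ψ X = 0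
  | [], _, η, h => ⟨η, fun _ _ => rfl, fun X hX => h X hX (by simp [U])⟩
  | S :: L, ⟨h1, h2, h3⟩, η, h => by
    have a1 : ∀ x ∉ S, ∀ y ∉ S, ¬ U L (insert x S) → ¬ U L (insert y S) →
        cob η (insert x S) = cob η (insert y S) := by
      intro x hx y hy hx' hy'
      by_cases e : x = y
      · rw [e]
      have hn : x ∉ insert y S := by simp [e, hx]
      have b := cob_cob η (insert x (insert y S))
      rw [cob, Finset.sum_insert hn, Finset.sum_insert hy, Finset.erase_insert hn,
        Finset.sum_eq_zero fun u hu => h _ ?_ ?_, Finset.insert_comm,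
        Finset.erase_insert (by simp [Ne.symm e, hy]), add_zero] at b
      · exact (CharTwo.add_eq_zero.1 b).symm
      · rw [Finset.card_erase_of_mem (by simp [hu]), Finset.card_insert_of_notMem hn,
          Finset.card_insert_of_notMem hy, h2]
      · rintro ⟨T, hT, h4⟩
        rcases List.mem_cons.1 hT with rfl | hT
        · exact Finset.notMem_erase u _ (h4 hu)
        · exact h3 x hx y hy hx' hy' ⟨T, hT, h4.trans (Finset.erase_subset _ _)⟩
    obtain ⟨c, hc⟩ : ∃ c, ∀ x ∉ S, ¬ U L (insert x S) → cob η (insert x S) = c := by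
      by_cases e : ∃ y ∉ S, ¬ U L (insert y S)
      · obtain ⟨y, hy, hy'⟩ := e
        exact ⟨_, fun x hx hx' => a1 x hx y hy hx' hy'⟩
      · exact ⟨0, fun x hx hx' => absurd ⟨x, hx, hx'⟩ e⟩
    obtain ⟨ψ, h4, h5⟩ := main L h1 (fun T => η T + if T = S then c else 0) fun X hX hX' => by
      rw [cob, Finset.sum_add_distrib]
      by_cases e : S ⊆ X
      · obtain ⟨x, hx, rfl⟩ := Finset.exists_eq_insert_iff.2 ⟨e, by rw [hX, h2]⟩
        rw [← cob, hc x hx hX', Finset.sum_insert hx, Finset.erase_insert hx, if_pos rfl,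
          Finset.sum_eq_zero fun v hv => if_neg fun e' => Finset.notMem_erase v _ (e'.ge hv),
          add_zero]
        exact CharTwo.add_self_eq_zero _
      · rw [← cob, h X hX (by
          rintro ⟨T, hT, h4⟩
          rcases List.mem_cons.1 hT with rfl | hT
          exacts [e h4, hX' ⟨T, hT, h4⟩]), zero_add]
        exact Finset.sum_eq_zero fun v _ => if_neg fun e' => e (e'.ge.trans (Finset.erase_subset _ _))
    refine ⟨ψ, fun T hT => ?_, h5⟩
    rw [List.mem_cons, not_or] at hT
    rw [h4 T hT.2, if_neg hT.1, add_zero]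

lemma lq_of_colon {k : Type} [Field k] {L : List (Finset σ)} {S : Finset σ} {V : Set σ}
    (h : ∀ c : MvPolynomial σ k, c * ∏ v ∈ S, X v ∈ Spd.IL k L ↔ c ∈ Ideal.span (X '' V))
    (x : σ) (hx : x ∉ S) (y : σ) (hy : y ∉ S) (h1 : ¬ U L (insert x S)) (h2 : ¬ U L (insert y S)) :
    ¬ U L (insert x (insert y S)) := by
  have e : ∀ A : Finset σ, Disjoint A S → (U L (A ∪ S) ↔ ∃ v ∈ V, v ∈ A) := fun A hA => by
    classical
    have := h (∏ v ∈ A, X v)
    rw [← Finset.prod_union hA, ← Spd.mon_ind, ← Spd.mon_ind, Spd.mem_IL,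
      mem_ideal_span_X_image, support_monomial, support_monomial, if_neg one_ne_zero,
      if_neg one_ne_zero] at this
    simpa only [Finset.mem_singleton, forall_eq, ← Finsupp.mem_support_iff, Spd.supp_ind, U]
      using this
  rw [Finset.insert_eq, e _ (by simpa)] at h1 h2
  rw [Finset.insert_eq, Finset.insert_eq y, ← Finset.union_assoc, e _ (by simp [hx, hy])]
  rintro ⟨v, hv, h3⟩
  rcases Finset.mem_union.1 h3 with h3 | h3
  exacts [h1 ⟨v, hv, h3⟩, h2 ⟨v, hv, h3⟩]
end general

end Pool.Agent.Ico
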