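import Pool.Agent.H.MP_c1f45e_al.A

set_option autoImplicit false

namespace Pool.Agent.Ico

/-- Adjacency in the complement of the icosahedron graph. -/
def adj (a b : Fin 12) : Bool :=
  (![4032, 3864, 3696, 3298, 2502, 2956, 797, 1593, 1139, 231, 399, 63] a : ℕ).testBit b

/-- The complement of the icosahedron graph. -/
def GG : SimpleGraph (Fin 12) where
  Adj a b := adj a b = true
  symm := ⟨by decide +kernel⟩
  loopless := ⟨by decide +kernel⟩

/-- Triangles of the icosahedron. -/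
def tri : Multiset (Finset (Fin 12)) := {{0, 1, 2}, {0, 1, 5}, {0, 2, 3}, {0, 3, 4}, {0, 4, 5},
  {1, 2, 7}, {1, 5, 6}, {1, 6, 7}, {2, 3, 8}, {2, 7, 8}, {3, 4, 9}, {3, 8, 9}, {4, 5, 10},
  {4, 9, 10}, {5, 6, 10}, {6, 7, 11}, {6, 10, 11}, {7, 8, 11}, {8, 9, 11}, {9, 10, 11}}

/-- A filling. -/
def fill : Multiset (Finset (Fin 12)) := {{0, 1, 2, 7}, {0, 1, 5, 6}, {0, 1, 6, 7}, {0, 2, 3, 8},
  {0, 2, 7, 8}, {0, 3, 4, 9}, {0, 3, 8, 9}, {0, 4, 5, 10}, {0, 4, 9, 10}, {0, 5, 6, 10},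
  {0, 6, 7, 11}, {0, 6, 10, 11}, {0, 7, 8, 11}, {0, 8, 9, 11}, {0, 9, 10, 11}}

/-- Inner faces of the filling. -/
def inn : Multiset (Finset (Fin 12)) := {{0, 2, 7}, {0, 1, 7}, {0, 5, 6}, {0, 1, 6}, {0, 6, 7},
  {0, 3, 8}, {0, 2, 8}, {0, 7, 8}, {0, 4, 9}, {0, 3, 9}, {0, 8, 9}, {0, 5, 10}, {0, 4, 10},
  {0, 9, 10}, {0, 6, 10}, {0, 7, 11}, {0, 6, 11}, {0, 10, 11}, {0, 8, 11}, {0, 9, 11}}

/-- A cocycle. -/
def chi (T : Finset (Fin 12)) : ZMod 2 :=
  if T = {0, 1, 2} ∨ T = {0, 1, 3} ∨ T = {0, 2, 5} ∨ T = {0, 1, 7} then 1 else 0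

lemma bd : (fill.bind fun X => X.val.map X.erase) = tri + (inn + inn) := by decide +kernel

lemma chi_cob : ∀ X ∈ (Finset.univ : Finset (Fin 12)).powersetCard 4, cob chi X = 0 ∨
    ∃ a ∈ X, ∃ b ∈ X, ∃ c ∈ X, a ≠ c ∧ adj a b = true ∧ adj b c = true := fun X hX =>
  not_not.1 (Multiset.countP_eq_zero.1 (show ((Finset.univ : Finset (Fin 12)).powersetCard
    4).val.countP (fun X => ¬ (cob chi X = 0 ∨ ∃ a ∈ X, ∃ b ∈ X, ∃ c ∈ X, a ≠ c ∧
      adj a b = true ∧ adj b c = true)) = 0 by decide +kernel) X hX)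

lemma tri_ind : ∀ T ∈ tri, ∀ a ∈ T, ∀ b ∈ T, adj a b = false := fun T hT =>
  not_not.1 (Multiset.countP_eq_zero.1 (show tri.countP
    (fun T => ¬ ∀ a ∈ T, ∀ b ∈ T, adj a b = false) = 0 by decide +kernel) T hT)

lemma fill_card : ∀ X ∈ fill, X.card = 4 := fun X hX =>
  not_not.1 (Multiset.countP_eq_zero.1 (show fill.countP
    (fun X => ¬ X.card = 4) = 0 by decide +kernel) X hX)

lemma gap : ∀ a b c d, adj a b = true → adj c d = true → a ≠ c → a ≠ d → b ≠ c → b ≠ d →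
    adj a c = true ∨ adj a d = true ∨ adj b c = true ∨ adj b d = true := by
  decide +kernel

lemma not_lq (L : List (Finset (Fin 12))) (h : LQ L)
    (h1 : ∀ S : Finset (Fin 12), S ∈ L ↔ S.card = 3 ∧ (GG.induce (S : Set (Fin 12))).Connected) :
    False := by
  obtain ⟨ψ, h2, h3⟩ := main L h chi fun X hX hX' =>
    (chi_cob X (Finset.mem_powersetCard.2 ⟨Finset.subset_univ _, hX⟩)).resolve_right (by
      rintro ⟨a, ha, b, hb, c, hc, e, e1, e2⟩
      have e1' : GG.Adj a b := e1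
      have e2' : GG.Adj b c := e2
      refine hX' ⟨{a, b, c}, (h1 _).2 ⟨Finset.card_eq_three.2 ⟨a, b, c, e1'.ne, e, e2'.ne, rfl⟩,
        ?_⟩, by simp [Finset.insert_subset_iff, ha, hb, hc]⟩
      have := SimpleGraph.induce_union_connected
        (SimpleGraph.induce_pair_connected_of_adj e1').preconnected
        (SimpleGraph.induce_pair_connected_of_adj e2').preconnected ⟨b, by simp⟩
      rwa [show ({a, b} ∪ {b, c} : Set (Fin 12)) = ({a, b, c} : Finset (Fin 12)) by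
        ext; simp; tauto] at this)
  have a1 : ∀ T ∈ tri, ψ T = chi T := fun T hT => h2 T fun h4 => by
    obtain ⟨h5, h6⟩ := (h1 T).1 h4
    obtain ⟨a, b, c, e, -, -, rfl⟩ := Finset.card_eq_three.1 h5
    obtain ⟨w⟩ := h6.preconnected ⟨a, by simp⟩ ⟨b, by simp⟩
    cases w with
    | nil => exact e rfl
    | @cons _ v _ h8 _ =>
      have h9 : adj a v.1 = true := h8
      rw [tri_ind _ hT a (by simp) v.1 v.2] at h9
      exact Bool.false_ne_true h9
  have a2 := congrArg (fun M => (M.map ψ).sum) bd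
  simp only [Multiset.map_add, Multiset.sum_add, CharTwo.add_self_eq_zero, add_zero,
    Multiset.map_bind, Multiset.sum_bind, Multiset.map_map] at a2
  rw [Multiset.map_congr rfl a1, Multiset.sum_eq_zero fun x hx => by
    obtain ⟨X, hX, rfl⟩ := Multiset.mem_map.1 hx
    exact h3 X (fill_card X hX)] at a2
  revert a2
  decide +kernel

/-- Reversed initial segments of a sequence. -/
def pre {α : Type} (S : ℕ → α) : ℕ → List α
  | 0 => []
  | n + 1 => S n :: pre S n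

lemma mem_pre {α : Type} {S : ℕ → α} {x : α} : ∀ {n}, x ∈ pre S n ↔ ∃ j < n, S j = x
  | 0 => by simp [pre]
  | n + 1 => by simp only [pre, List.mem_cons, mem_pre, Nat.exists_lt_succ_right, or_comm, eq_comm]

end Pool.Agent.Ico
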